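import Pool.Agent.K3h56.E2.Stm3

set_option autoImplicit false

namespace Pool.Agent.K3h13.E2

open Pool.Agent.K3h56.E2 Matrix

section idx

variable {ι : Type} [Fintype ι] [DecidableEq ι]

/-- the index of the lattice generated by the columns of an integral matrix -/
theorem index_range (m : Matrix ι ι ℤ) :
    (LinearMap.range m.mulVecLin).toAddSubgroup.index = m.det.natAbs := by
  by_cases h : m.det = 0
  · rw [h, Int.natAbs_zero]
    by_contra hne
    obtain ⟨n, hn⟩ : ∃ n, n = (LinearMap.range m.mulVecLin).toAddSubgroup.index := ⟨_, rfl⟩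
    rw [← hn] at hne
    have h1 : ∀ j : ι, ∃ l : ι → ℤ, m *ᵥ l = n • (Pi.single j 1 : ι → ℤ) := by
      intro j
      have h2 := AddSubgroup.nsmul_index_mem
        (LinearMap.range m.mulVecLin).toAddSubgroup (Pi.single j 1 : ι → ℤ)
      rw [← hn] at h2
      obtain ⟨l, hl⟩ := h2
      exact ⟨l, hl⟩
    choose l hl using h1
    have h2 : m * (Matrix.of fun i j => l j i) = (n : ℤ) • (1 : Matrix ι ι ℤ) := by
      ext i j
      have h3 := congrFun (hl j) i
      rw [Matrix.mul_apply, Matrix.smul_apply, Matrix.one_apply]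
      rw [Matrix.mulVec, dotProduct] at h3
      simp only [Matrix.of_apply]
      rw [h3, Pi.smul_apply, Pi.single_apply]
      simp
    have h3 := congrArg Matrix.det h2
    rw [Matrix.det_mul, h, zero_mul, Matrix.det_smul, Matrix.det_one, mul_one] at h3
    exact pow_ne_zero _ (by exact_mod_cast hne) h3.symm
  · have hinj : Function.Injective m.mulVecLin := by
      rw [← LinearMap.ker_eq_bot, LinearMap.ker_eq_bot']
      intro v hv
      exact Matrix.eq_zero_of_mulVec_eq_zero h hv
    have h1 := Submodule.natAbs_det_basis_change (Pi.basisFun ℤ ι) (LinearMap.range m.mulVecLin)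
      ((Pi.basisFun ℤ ι).map (LinearEquiv.ofInjective m.mulVecLin hinj))
    have h2 : (Pi.basisFun ℤ ι).det ((↑) ∘ ((Pi.basisFun ℤ ι).map
        (LinearEquiv.ofInjective m.mulVecLin hinj))) = m.det := by
      rw [Module.Basis.det_apply]
      congr 1
      ext i j
      simp [Module.Basis.toMatrix_apply]
    rw [h2] at h1
    rw [h1]
    rfl

end idx

theorem t_DETIDX : S_DETIDX := by
  intro M _ ι _ _ Λ V μ hμV hΛ e x he hx hdet
  have hxe : ∀ b, ∃ k : ι → ℤ, ∃ z ∈ μ, x b = (∏ c, e c ^ k c) * z := by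
    intro b
    have h1 := hx b
    rw [← he, Subgroup.mem_sup] at h1
    obtain ⟨y, hy, z, hz, h2⟩ := h1
    rw [Subgroup.mem_closure_range_iff_of_fintype] at hy
    obtain ⟨k, hk⟩ := hy
    exact ⟨k, z, hz, by rw [← h2, hk]⟩
  choose k z hz hxk using hxe
  obtain ⟨m, hm⟩ : ∃ m : Matrix ι ι ℤ, m = Matrix.of fun c b => k b c := ⟨_, rfl⟩
  obtain ⟨Le, hLe⟩ : ∃ Le : Matrix ι ι ℝ,
      Le = Matrix.of fun a b : ι => Multiplicative.toAdd (Λ (e b)) a := ⟨_, rfl⟩
  obtain ⟨Lx, hLx⟩ : ∃ Lx : Matrix ι ι ℝ,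
      Lx = Matrix.of fun a b : ι => Multiplicative.toAdd (Λ (x b)) a := ⟨_, rfl⟩
  rw [← hLe] at hdet
  rw [← hLe, ← hLx]
  have hprod : ∀ (y : ι → M) (l : ι → ℤ) (a : ι),
      Multiplicative.toAdd (Λ (∏ c, y c ^ l c)) a =
        ∑ c, (l c : ℝ) * Multiplicative.toAdd (Λ (y c)) a := by
    intro y l a
    rw [map_prod, toAdd_prod, Finset.sum_apply]
    refine Finset.sum_congr rfl fun c _ => ?_
    rw [map_zpow, toAdd_zpow, Pi.smul_apply, zsmul_eq_mul]
  have hμ0 : ∀ y : M, ∀ w ∈ μ, Λ (y * w) = Λ y := by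
    intro y w hw
    rw [map_mul, hΛ w hw, mul_one]
  have hLL : Lx = Le * m.map (fun i : ℤ => (i : ℝ)) := by
    ext a b
    rw [Matrix.mul_apply, hLx, hLe, hm]
    simp only [Matrix.of_apply, Matrix.map_apply]
    rw [hxk b, hμ0 _ _ (hz b), hprod]
    exact Finset.sum_congr rfl fun c _ => mul_comm _ _
  have hdet2 : Lx.det = Le.det * (m.det : ℝ) := by
    rw [hLL, Matrix.det_mul, Int.cast_det]
  -- the index
  obtain ⟨W, hW⟩ : ∃ W, W = Subgroup.closure (Set.range x) ⊔ μ := ⟨_, rfl⟩
  rw [← hW]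
  have hxW : ∀ b, x b ∈ W := fun b => by
    rw [hW]
    exact (le_sup_left : Subgroup.closure (Set.range x) ≤ _) (Subgroup.subset_closure ⟨b, rfl⟩)
  have hμW : μ ≤ W := by
    rw [hW]
    exact le_sup_right
  have hWV : W ≤ V := by
    rw [hW]
    refine sup_le ?_ hμV
    rw [Subgroup.closure_le]
    rintro _ ⟨b, rfl⟩
    exact hx b
  let φ : Multiplicative (ι → ℤ) →* M := MonoidHom.mk' (fun l => ∏ c, e c ^ (Multiplicative.toAdd l) c)
    (by
      intro l l'
      rw [← Finset.prod_mul_distrib]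
      refine Finset.prod_congr rfl fun c _ => ?_
      rw [toAdd_mul, Pi.add_apply, _root_.zpow_add])
  have hφ : ∀ l, φ l = ∏ c, e c ^ (Multiplicative.toAdd l) c := fun l => rfl
  have hV : V = φ.range ⊔ W := by
    apply le_antisymm
    · rw [← he]
      refine sup_le ?_ (hμW.trans le_sup_right)
      intro y hy
      rw [Subgroup.mem_closure_range_iff_of_fintype] at hy
      obtain ⟨l, hl⟩ := hy
      refine (le_sup_left : φ.range ≤ _) ⟨Multiplicative.ofAdd l, ?_⟩
      rw [hφ, hl]
      rfl
    · refine sup_le ?_ hWV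
      rintro _ ⟨l, rfl⟩
      rw [hφ, ← he]
      refine (le_sup_left : Subgroup.closure (Set.range e) ≤ _) ?_
      rw [Subgroup.mem_closure_range_iff_of_fintype]
      exact ⟨Multiplicative.toAdd l, rfl⟩
  have hidx : W.relIndex V = (W.comap φ).index := by
    rw [hV, Subgroup.relIndex_sup_right, MonoidHom.range_eq_map, ← Subgroup.relIndex_comap,
      Subgroup.relIndex_top_right]
  have hk : ∀ b, φ (Multiplicative.ofAdd (k b)) ∈ W := by
    intro b
    have h1 : φ (Multiplicative.ofAdd (k b)) = x b * (z b)⁻¹ := by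
      rw [hφ, hxk b, mul_inv_cancel_right]
      rfl
    rw [h1]
    exact W.mul_mem (hxW b) (W.inv_mem (hμW (hz b)))
  have hcomap : W.comap φ = AddSubgroup.toSubgroup (LinearMap.range m.mulVecLin).toAddSubgroup := by
    ext l
    constructor
    · intro hl
      have hl' : φ l ∈ W := hl
      rw [hW, Subgroup.mem_sup] at hl'
      obtain ⟨y, hy, w, hw, hyw⟩ := hl'
      rw [Subgroup.mem_closure_range_iff_of_fintype] at hy
      obtain ⟨t, ht⟩ := hy
      show Multiplicative.toAdd l ∈ LinearMap.range m.mulVecLin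
      refine ⟨t, ?_⟩
      rw [Matrix.mulVecLin_apply]
      have h1 : Le *ᵥ (fun c => (((m *ᵥ t) c - Multiplicative.toAdd l c : ℤ) : ℝ)) = 0 := by
        have h2 : Le *ᵥ (fun c => (((m *ᵥ t) c : ℤ) : ℝ)) = Lx *ᵥ (fun c => (t c : ℝ)) := by
          rw [hLL, ← Matrix.mulVec_mulVec]
          congr 1
          ext c
          simp only [Matrix.mulVec, dotProduct, Matrix.map_apply]
          push_cast
          rfl
        have h3 : Le *ᵥ (fun c => ((Multiplicative.toAdd l c : ℤ) : ℝ)) =
            Lx *ᵥ (fun c => (t c : ℝ)) := by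
          ext a
          have h4 := hprod e (Multiplicative.toAdd l) a
          have h5 := hprod x t a
          have h6 : Λ (∏ c, e c ^ (Multiplicative.toAdd l) c) = Λ (∏ c, x c ^ t c) := by
            rw [← hφ, ← hyw, hμ0 _ _ hw, ht]
          rw [h6] at h4
          rw [h4] at h5
          simp only [Matrix.mulVec, dotProduct, hLe, hLx, Matrix.of_apply]
          calc ∑ c, Multiplicative.toAdd (Λ (e c)) a * ((Multiplicative.toAdd l c : ℤ) : ℝ)
              = ∑ c, ((Multiplicative.toAdd l c : ℤ) : ℝ) * Multiplicative.toAdd (Λ (e c)) a :=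
                Finset.sum_congr rfl fun c _ => mul_comm _ _
            _ = ∑ c, (t c : ℝ) * Multiplicative.toAdd (Λ (x c)) a := h5
            _ = _ := Finset.sum_congr rfl fun c _ => mul_comm _ _
        have h4 : (fun c => (((m *ᵥ t) c - Multiplicative.toAdd l c : ℤ) : ℝ)) =
            (fun c => (((m *ᵥ t) c : ℤ) : ℝ)) - (fun c => ((Multiplicative.toAdd l c : ℤ) : ℝ)) := by
          ext c
          push_cast
          rfl
        rw [h4, Matrix.mulVec_sub, h2, h3, sub_self]
      have h2 := Matrix.eq_zero_of_mulVec_eq_zero hdet h1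
      ext c
      have h3 := congrFun h2 c
      simp only [Pi.zero_apply, Int.cast_eq_zero] at h3
      linarith
    · intro hl
      have hl' : Multiplicative.toAdd l ∈ LinearMap.range m.mulVecLin := hl
      obtain ⟨t, ht⟩ := hl'
      rw [Matrix.mulVecLin_apply] at ht
      show φ l ∈ W
      have h1 : l = ∏ b, (Multiplicative.ofAdd (k b)) ^ t b := by
        apply Multiplicative.toAdd.injective
        rw [toAdd_prod, ← ht]
        ext c
        rw [Finset.sum_apply]
        simp only [Matrix.mulVec, dotProduct, hm, Matrix.of_apply, toAdd_zpow, toAdd_ofAdd,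
          Pi.smul_apply, smul_eq_mul]
        exact Finset.sum_congr rfl fun b _ => mul_comm _ _
      rw [h1, map_prod]
      refine W.prod_mem fun b _ => ?_
      rw [map_zpow]
      exact W.zpow_mem (hk b) _
  rw [hidx, hcomap, AddSubgroup.index_toSubgroup, index_range, hdet2, abs_mul, Nat.cast_natAbs,
    Int.cast_abs, mul_comm]

end Pool.Agent.K3h13.E2
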